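import Pool.Agent.H7.GF.Targets1

/-!
# MP_cd65c5_nt: module DICH
-/

set_option autoImplicit false

namespace Pool.Agent.H83.GF

open Polynomial NumberField Module Pool.Agent.H7.GF

/-- the field generated by a root, abstractly -/
theorem dich_aux (f : ℤ[X]) (hm : f.Monic) (hirr : Irreducible (toQ f)) (K : Type) [Field K]
    [NumberField K] (z : K) (hz : f.eval₂ (Int.castRingHom K) z = 0)
    (hfr : finrank ℚ K = f.natDegree) : PrimF f ∨ ImprF f := by
  have hint : IsIntegral ℤ z := ⟨f, hm, hz⟩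
  have hQ : minpoly ℚ z = toQ f := by
    symm
    apply minpoly.eq_of_irreducible_of_monic hirr _ (hm.map _)
    unfold toQ
    rw [aeval_def, eval₂_map]
    have h1 : (algebraMap ℚ K).comp (Int.castRingHom ℚ) = Int.castRingHom K := RingHom.ext_int _ _
    rw [h1]
    exact hz
  have hZ : minpoly ℤ z = f := by
    have h2 := minpoly.isIntegrallyClosed_eq_field_fractions' ℚ hint
    rw [hQ] at h2
    have h3 : (minpoly ℤ z).map (algebraMap ℤ ℚ) = f.map (algebraMap ℤ ℚ) := h2.symm
    exact Polynomial.map_injective _ (algebraMap ℤ ℚ).injective_int h3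
  set θ : 𝓞 K := ⟨z, hint⟩ with hθ
  have hθz : minpoly ℤ θ = f := by
    rw [← hZ]
    exact (NumberField.RingOfIntegers.minpoly_coe θ).symm
  by_cases h : NoInt K
  · exact Or.inl ⟨K, inferInstance, inferInstance, θ, hθz, hfr.symm, h⟩
  · exact Or.inr ⟨K, inferInstance, inferInstance, θ, hθz, hfr.symm, h⟩

theorem dich : T_DICH := by
  intro f hm hirr
  have hF : Fact (Irreducible (toQ f)) := ⟨hirr⟩
  have hne : toQ f ≠ 0 := hirr.ne_zero
  have hcz : CharZero (AdjoinRoot (toQ f)) :=
    charZero_of_injective_algebraMap (algebraMap ℚ (AdjoinRoot (toQ f))).injective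
  have hfd : FiniteDimensional ℚ (AdjoinRoot (toQ f)) := (AdjoinRoot.powerBasis hne).finite
  have hNF : NumberField (AdjoinRoot (toQ f)) :=
    { to_charZero := hcz, to_finiteDimensional := by convert hfd }
  have hfr : finrank ℚ (AdjoinRoot (toQ f)) = f.natDegree := by
    rw [(AdjoinRoot.powerBasis hne).finrank, AdjoinRoot.powerBasis_dim]
    exact hm.natDegree_map _
  apply dich_aux f hm hirr (AdjoinRoot (toQ f)) (AdjoinRoot.root (toQ f))
  · have h1 := AdjoinRoot.eval₂_root (toQ f)
    have h2 : (toQ f).eval₂ (AdjoinRoot.of (toQ f)) (AdjoinRoot.root (toQ f)) =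
        f.eval₂ ((AdjoinRoot.of (toQ f)).comp (Int.castRingHom ℚ)) (AdjoinRoot.root (toQ f)) :=
      eval₂_map _ _ _
    rw [h2] at h1
    rw [← h1]
    congr 1
  · convert hfr

end Pool.Agent.H83.GF
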