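import Pool.Agent.H7.GF.Targets1

/-!
# MP_cd65c5_nt: modules OMG, LOW, PDEG
-/

set_option autoImplicit false

namespace Pool.Agent.H83.GF

open Polynomial NumberField Module Pool.Agent.H7.GF

theorem omg : T_OMG := by
  intro A hA ε hε
  -- threshold
  obtain ⟨P0, hP0⟩ : ∃ P0 : ℕ, ∀ p : ℕ, P0 ≤ p → A ≤ (p : ℝ) ^ ε := by
    have h1 : Filter.Tendsto (fun n : ℕ => (n : ℝ) ^ ε) Filter.atTop Filter.atTop :=
      (tendsto_rpow_atTop hε).comp tendsto_natCast_atTop_atTop
    exact Filter.eventually_atTop.mp (h1.eventually_ge_atTop A)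
  have hA0 : 0 < A := by linarith
  refine ⟨A ^ P0, fun N hN => ?_⟩
  have h1 : A ^ om N = ∏ _p ∈ N.primeFactors, A := by
    unfold om
    rw [Finset.prod_const]
  have h2 : ∀ p ∈ N.primeFactors, A ≤ (if p < P0 then A else 1) * (p : ℝ) ^ ε := by
    intro p hp
    have hp1 : 1 ≤ (p : ℝ) := by
      exact_mod_cast (Nat.prime_of_mem_primeFactors hp).one_lt.le
    split_ifs with h
    · have h3 : 1 ≤ (p : ℝ) ^ ε := Real.one_le_rpow hp1 hε.le
      nlinarith
    · rw [one_mul]
      exact hP0 p (not_lt.mp h)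
  have h3 : ∏ p ∈ N.primeFactors, (if p < P0 then A else 1) ≤ A ^ P0 := by
    rw [← Finset.prod_filter, Finset.prod_const]
    apply pow_le_pow_right₀ hA
    calc (N.primeFactors.filter (fun p => p < P0)).card ≤ (Finset.range P0).card := by
          apply Finset.card_le_card
          intro p hp
          rw [Finset.mem_filter] at hp
          exact Finset.mem_range.mpr hp.2
      _ = P0 := Finset.card_range P0
  have h4 : ∏ p ∈ N.primeFactors, (p : ℝ) ^ ε ≤ (N : ℝ) ^ ε := by
    rw [Real.finsetProd_rpow _ _ (fun p _ => by positivity)]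
    apply Real.rpow_le_rpow (by positivity) _ hε.le
    have h5 : ∏ p ∈ N.primeFactors, p ≤ N := Nat.le_of_dvd (by omega) (Nat.prod_primeFactors_dvd N)
    have h6 : ((∏ p ∈ N.primeFactors, p : ℕ) : ℝ) ≤ N := by exact_mod_cast h5
    rw [Nat.cast_prod] at h6
    exact h6
  rw [h1]
  calc ∏ _p ∈ N.primeFactors, A ≤ ∏ p ∈ N.primeFactors, ((if p < P0 then A else 1) * (p : ℝ) ^ ε) :=
        Finset.prod_le_prod (fun _ _ => hA0.le) h2
    _ = (∏ p ∈ N.primeFactors, (if p < P0 then A else 1)) * ∏ p ∈ N.primeFactors, (p : ℝ) ^ ε :=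
        Finset.prod_mul_distrib
    _ ≤ A ^ P0 * (N : ℝ) ^ ε := by
        apply mul_le_mul h3 h4
        · exact Finset.prod_nonneg (fun _ _ => by positivity)
        · positivity

theorem pdeg : T_PDEG := by
  intro f hf hI
  obtain ⟨K, iK, iN, θ, h1, h2, h3⟩ := hI
  apply h3
  intro F
  rw [h2] at hf
  have h4 : finrank ℚ F * finrank F K = finrank ℚ K := Module.finrank_mul_finrank ℚ F K
  rcases (Nat.dvd_prime hf).mp (Dvd.intro _ h4) with h5 | h5
  · left
    exact IntermediateField.finrank_eq_one_iff.mp h5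
  · right
    apply IntermediateField.eq_of_le_of_finrank_eq' le_top
    have h6 : finrank F K = 1 := by
      have hpos : 0 < finrank ℚ K := hf.pos
      rw [h5] at h4
      exact Nat.eq_of_mul_eq_mul_left hpos (by rw [h4, mul_one])
    rw [h6]
    have h7 := IntermediateField.finrank_top (F := ℚ) (E := K)
    rw [h7]

theorem low : T_LOW := by
  intro m hm b _
  obtain ⟨k, rfl⟩ : ∃ k, m = k + 1 := ⟨m - 1, by omega⟩
  have hk0 : (0 : ℝ) < (k + 1 : ℝ) := by positivity
  refine ⟨(1 / (4 * ((k : ℝ) + 1))) ^ k, by positivity, 4 * (k + 1) * (1 + b.natAbs), ?_⟩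
  intro H hH
  set L : ℕ := H / (2 * (k + 1)) with hL
  -- the map
  let Φ : (Fin k → ℤ) → (Fin (k + 1) → ℤ) := fun c => Fin.cons (-1 - b - ∑ i, c i) c
  have hinj : Function.Injective Φ := by
    intro c c' h
    exact (Fin.cons_inj.mp h).2
  have hsub : Φ '' ((box k L : Finset (Fin k → ℤ)) : Set (Fin k → ℤ)) ⊆
      {a | a ∈ box (k + 1) H ∧ (pol b a).eval 1 = 0} := by
    rintro a ⟨c, hc, rfl⟩
    have hc' : ∀ i, -(L : ℤ) ≤ c i ∧ c i ≤ L := by
      intro i
      have := (Fintype.mem_piFinset.mp (Finset.mem_coe.mp hc)) i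
      exact Finset.mem_Icc.mp this
    have hLH : L * (2 * (k + 1)) ≤ H := Nat.div_mul_le_self H (2 * (k + 1))
    have hLH' : (L : ℤ) * (2 * (k + 1)) ≤ H := by exact_mod_cast hLH
    have hL0 : (0 : ℤ) ≤ L := by positivity
    have hk : (0 : ℤ) ≤ k := by positivity
    refine ⟨?_, ?_⟩
    · unfold box
      rw [Fintype.mem_piFinset]
      intro i
      rw [Finset.mem_Icc]
      refine Fin.cases ?_ (fun j => ?_) i
      · have hs : |∑ i, c i| ≤ k * L := by
          calc |∑ i, c i| ≤ ∑ i, |c i| := Finset.abs_sum_le_sum_abs _ _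
            _ ≤ ∑ _i : Fin k, (L : ℤ) := Finset.sum_le_sum (fun i _ => abs_le.mpr (hc' i))
            _ = k * L := by simp
        have hs' := abs_le.mp hs
        have hb : |b| ≤ (b.natAbs : ℤ) := by rw [Int.natCast_natAbs]
        have hb' := abs_le.mp hb
        have hH' : (4 * (k + 1) * (1 + b.natAbs) : ℤ) ≤ H := by exact_mod_cast hH
        have hbn : (0 : ℤ) ≤ b.natAbs := by positivity
        have e1 : 2 * (1 + (b.natAbs : ℤ)) ≤ H := by nlinarith
        have e2 : 2 * ((k : ℤ) * L) ≤ H := by nlinarith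
        simp only [Φ, Fin.cons_zero]
        constructor <;> linarith
      · have h1 := hc' j
        simp only [Φ, Fin.cons_succ]
        have e3 : (L : ℤ) ≤ H := by nlinarith
        constructor <;> linarith
    · unfold pol
      simp only [eval_add, eval_pow, eval_X, one_pow, eval_finsetSum, eval_mul, eval_C, mul_one]
      rw [Fin.sum_univ_succ]
      simp only [Φ, Fin.cons_zero, Fin.cons_succ]
      ring
  have hfin : {a | a ∈ box (k + 1) H ∧ (pol b a).eval 1 = 0}.Finite :=
    (Finset.finite_toSet (box (k + 1) H)).subset (fun a ha => ha.1)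
  have hcard : ((2 * L + 1) ^ k : ℕ) ≤ {a | a ∈ box (k + 1) H ∧ (pol b a).eval 1 = 0}.ncard := by
    have h1 := Set.ncard_le_ncard hsub hfin
    rw [Set.ncard_image_of_injective _ hinj, Set.ncard_coe_finset] at h1
    have h2 : (box k L).card = (2 * L + 1) ^ k := by
      unfold box
      rw [Fintype.card_piFinset]
      simp only [Int.card_Icc, Finset.prod_const, Finset.card_univ, Fintype.card_fin]
      congr 1
      omega
    rw [h2] at h1
    exact h1
  unfold cnt
  have h3 : ((2 * (L : ℝ) + 1) ^ k) ≤ ({a | a ∈ box (k + 1) H ∧ (pol b a).eval 1 = 0}.ncard : ℝ) := by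
    exact_mod_cast hcard
  refine le_trans ?_ h3
  rw [Nat.add_sub_cancel, ← mul_pow]
  apply pow_le_pow_left₀ (by positivity)
  have h4 : H < (L + 1) * (2 * (k + 1)) := by
    have := Nat.lt_succ_iff.mpr (le_refl L)
    exact (Nat.div_lt_iff_lt_mul (by positivity)).mp this
  have h5 : (H : ℝ) < ((L : ℝ) + 1) * (2 * (k + 1)) := by exact_mod_cast h4
  rw [div_mul_eq_mul_div, one_mul, div_le_iff₀ (by positivity)]
  have h6 : (0 : ℝ) ≤ L := by positivity
  have h7 : (0 : ℝ) ≤ k := by positivity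
  nlinarith

end Pool.Agent.H83.GF
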